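import Pool.Agent.TH395.P5.MStm

/-!
# The translation to cycles, isthmuses and Petersen minors (job 4603)
-/

set_option autoImplicit false
set_option linter.unusedSectionVars false

namespace Pool.Agent.TH443.P5

open Finset Pool.Agent.TH462.T4 Pool.Agent.TH676.T4 Pool.Agent.TH395.P5

/-- the isomorphism of the Kneser graph with the list of edges -/
def bt (s : Finset (Fin 5)) : Fin 10 :=
  if s = {0, 1} then 0 else if s = {2, 3} then 1 else if s = {0, 4} then 2
  else if s = {1, 2} then 3 else if s = {3, 4} then 4 else if s = {2, 4} then 5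
  else if s = {1, 4} then 6 else if s = {1, 3} then 7 else if s = {0, 3} then 8 else 9

theorem bt_inj : ∀ s ∈ (univ : Finset (Fin 5)).powersetCard 2,
    ∀ t ∈ (univ : Finset (Fin 5)).powersetCard 2, bt s = bt t → s = t := by
  decide

theorem bt_adj : ∀ s ∈ (univ : Finset (Fin 5)).powersetCard 2,
    ∀ t ∈ (univ : Finset (Fin 5)).powersetCard 2, Disjoint s t →
      (bt s, bt t) ∈ petEdges ∨ (bt t, bt s) ∈ petEdges := by
  decide

theorem mem_psc {s : Finset (Fin 5)} (h : s.card = 2) :
    s ∈ (univ : Finset (Fin 5)).powersetCard 2 :=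
  mem_powersetCard.2 ⟨subset_univ _, h⟩

section
variable {V E : Type} [Fintype V] [DecidableEq V] [Fintype E] [DecidableEq E]

theorem conn_walk {src dst : E → V} {B : Finset V} (h : ConnSet src dst B) :
    ∀ x ∈ (B : Set V), ∀ y ∈ (B : Set V),
      Relation.ReflTransGen (AdjIn src dst (B : Set V)) x y := by
  classical
  intro x hx y hy
  obtain ⟨A, hA⟩ : ∃ A, A = B.filter
    (fun z => Relation.ReflTransGen (AdjIn src dst (B : Set V)) x z) := ⟨_, rfl⟩
  have hmem : ∀ z, z ∈ A ↔ z ∈ B ∧ Relation.ReflTransGen (AdjIn src dst (B : Set V)) x z := by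
    intro z
    rw [hA, mem_filter]
  by_cases hAB : A = B
  · have hy' : y ∈ A := by
      rw [hAB]
      exact hy
    exact ((hmem y).1 hy').2
  · exfalso
    have hsub : A ⊆ B := fun z hz => ((hmem z).1 hz).1
    have hne : A.Nonempty := ⟨x, (hmem x).2 ⟨hx, Relation.ReflTransGen.refl⟩⟩
    obtain ⟨e, he⟩ := h.2 A hsub hne hAB
    rcases he with ⟨h1, h2⟩ | ⟨h1, h2⟩
    · obtain ⟨h3, h4⟩ := (hmem _).1 h1
      obtain ⟨h5, h6⟩ := mem_sdiff.1 h2
      exact h6 ((hmem _).2 ⟨h5, h4.tail ⟨h3, h5, e, Or.inl ⟨rfl, rfl⟩⟩⟩)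
    · obtain ⟨h3, h4⟩ := (hmem _).1 h2
      obtain ⟨h5, h6⟩ := mem_sdiff.1 h1
      exact h6 ((hmem _).2 ⟨h5, h4.tail ⟨h3, h5, e, Or.inr ⟨rfl, rfl⟩⟩⟩)

theorem pet_minor {src dst : E → V} (h : PetMinor src dst) : HasPetersenMinor src dst := by
  obtain ⟨B, h1, h2, h3⟩ := h
  refine ⟨fun s => (B (bt s.1) : Set V), ?_, ?_, ?_, ?_⟩
  · intro s
    obtain ⟨x, hx⟩ := (h1 (bt s.1)).1
    exact ⟨x, hx⟩
  · intro s t hst
    have h4 : bt s.1 ≠ bt t.1 := by
      intro h5
      exact hst (Subtype.ext (bt_inj s.1 (mem_psc s.2) t.1 (mem_psc t.2) h5))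
    exact disjoint_coe.2 (h2 _ _ h4)
  · intro s
    exact conn_walk (h1 (bt s.1))
  · intro s t hst
    rcases bt_adj s.1 (mem_psc s.2) t.1 (mem_psc t.2) hst with h4 | h4
    · obtain ⟨e, he⟩ := h3 _ h4
      exact ⟨e, he⟩
    · obtain ⟨e, he⟩ := h3 _ h4
      rcases he with he | he
      · exact ⟨e, Or.inr he⟩
      · exact ⟨e, Or.inl he⟩

theorem no_one_cut {src dst : E → V} (h : ∀ e, ¬ IsIsthmus src dst e) : Br src dst ∅ ∅ := by
  intro Y _ hcard
  rw [sdiff_empty, card_eq_one] at hcard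
  obtain ⟨e, he⟩ := hcard
  have h1 : Relation.ReflTransGen (AdjWithout src dst e) (src e) (dst e) := not_not.1 (h e)
  have h2 : ∀ z, Relation.ReflTransGen (AdjWithout src dst e) (src e) z →
      (src e ∈ Y ↔ z ∈ Y) := by
    intro z hz
    induction hz with
    | refl => exact Iff.rfl
    | tail _ hadj ih =>
      rw [ih]
      obtain ⟨d, hd, hd2⟩ := hadj
      have h3 : d ∉ crs src dst Y := by
        rw [he, mem_singleton]
        exact hd
      rw [mem_crs, not_not] at h3
      rcases hd2 with ⟨rfl, rfl⟩ | ⟨rfl, rfl⟩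
      · exact h3
      · exact h3.symm
  have h3 : e ∈ crs src dst Y := by
    rw [he]
    exact mem_singleton_self _
  rw [mem_crs] at h3
  exact h3 (h2 _ h1)

theorem even_of_sum {src dst : E → V} (g : E → ZMod 2) (v : V)
    (h : ∑ e, ((if src e = v then g e else 0) + (if dst e = v then g e else 0)) = 0) :
    Even (((univ.filter (fun e => g e ≠ 0)).filter (fun e => src e = v)).card +
      ((univ.filter (fun e => g e ≠ 0)).filter (fun e => dst e = v)).card) := by
  have hg : ∀ x : ZMod 2, x ≠ 0 → x = 1 := by decide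
  have key : ∀ s : E → V, (((univ.filter (fun e => g e ≠ 0)).filter
      (fun e => s e = v)).card : ZMod 2) = ∑ e, (if s e = v then g e else 0) := by
    intro s
    rw [card_eq_sum_ones, Nat.cast_sum, filter_filter, sum_filter]
    refine sum_congr rfl fun e _ => ?_
    by_cases h1 : s e = v
    · by_cases h2 : g e = 0
      · rw [if_neg (by tauto), if_pos h1, h2]
      · rw [if_pos ⟨h2, h1⟩, if_pos h1, hg _ h2]
        norm_num
    · rw [if_neg (by tauto), if_neg h1]
  rw [← ZMod.natCast_eq_zero_iff_even, Nat.cast_add, key, key, ← sum_add_distrib]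
  exact h

end

theorem t : S_TRANS := by
  intro hF V E _ _ _ _ src dst X hX hiso hPet
  obtain ⟨f, hf, -, hf0⟩ := hF V E src dst ⟨X, hX.edge, hX.interval, hX.width⟩
    (fun h => hPet (pet_minor h)) (no_one_cut hiso)
  refine ⟨univ.filter (fun e => (f e).1 ≠ 0), univ.filter (fun e => (f e).2 ≠ 0), ?_, ?_, ?_⟩
  · intro v
    refine even_of_sum (fun e => (f e).1) v ?_
    have h1 := congrArg Prod.fst (hf v)
    unfold bd at h1
    rw [Prod.fst_sum] at h1
    refine Eq.trans ?_ h1
    · refine sum_congr rfl fun e _ => ?_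
      rw [Prod.fst_add]
      split_ifs <;> rfl
  · intro v
    refine even_of_sum (fun e => (f e).2) v ?_
    have h1 := congrArg Prod.snd (hf v)
    unfold bd at h1
    rw [Prod.snd_sum] at h1
    refine Eq.trans ?_ h1
    · refine sum_congr rfl fun e _ => ?_
      rw [Prod.snd_add]
      split_ifs <;> rfl
  · ext e
    simp only [mem_union, mem_filter, mem_univ, true_and, iff_true]
    by_contra h
    push Not at h
    exact hf0 e (notMem_empty e) (notMem_empty e) (Prod.ext h.1 h.2)

end Pool.Agent.TH443.P5
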